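import Mathlib

set_option autoImplicit false

/-!
# Sampling numbers: simultaneous approximation of the shifts by multiples of the modulus
-/

namespace Pool.Agent.U26Z.SH

open Finset

lemma fract_close {W : ℕ} {u v : ℝ} (hu : 0 ≤ u) (huv : u ≤ v)
    (h : ⌊(W : ℝ) * Int.fract u⌋₊ = ⌊(W : ℝ) * Int.fract v⌋₊) :
    |(W : ℝ) * (v - u) - W * ((⌊v⌋₊ - ⌊u⌋₊ : ℕ) : ℝ)| ≤ 1 := by
  have hv : 0 ≤ v := hu.trans huv
  have hle : ⌊u⌋₊ ≤ ⌊v⌋₊ := Nat.floor_le_floor huv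
  rw [Nat.cast_sub hle]
  have e1 : (⌊u⌋₊ : ℝ) = u - Int.fract u := by
    rw [← Int.self_sub_floor, natCast_floor_eq_intCast_floor hu]
    ring
  have e2 : (⌊v⌋₊ : ℝ) = v - Int.fract v := by
    rw [← Int.self_sub_floor, natCast_floor_eq_intCast_floor hv]
    ring
  rw [e1, e2]
  have e3 : (W : ℝ) * (v - u) - W * (v - Int.fract v - (u - Int.fract u)) =
      W * Int.fract v - W * Int.fract u := by ring
  rw [e3]
  have hW : (0 : ℝ) ≤ W := Nat.cast_nonneg _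
  have a1 : 0 ≤ (W : ℝ) * Int.fract u := mul_nonneg hW (Int.fract_nonneg _)
  have a2 : 0 ≤ (W : ℝ) * Int.fract v := mul_nonneg hW (Int.fract_nonneg _)
  have b1 := Nat.floor_le a1
  have b2 := Nat.floor_le a2
  have b3 := Nat.lt_floor_add_one ((W : ℝ) * Int.fract u)
  have b4 := Nat.lt_floor_add_one ((W : ℝ) * Int.fract v)
  rw [h] at b1 b3
  rw [abs_le]
  constructor <;> linarith

/-- Dirichlet's theorem: some multiple `k T` of `T`, `1 ≤ k ≤ W ^ m`, has all `l j k T`, `j < m`,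
within `1` of a multiple of `W` -/
theorem dirichlet (m W : ℕ) (hW : 1 ≤ W) (T : ℝ) (hT : 0 ≤ T) (l : ℕ → ℝ)
    (hl : ∀ j < m, 0 ≤ l j) :
    ∃ k : ℕ, 1 ≤ k ∧ k ≤ W ^ m ∧ ∃ n : ℕ → ℕ, ∀ j < m,
      |l j * (k * T) - ((W * n j : ℕ) : ℝ)| ≤ 1 := by
  classical
  have hWr : (0 : ℝ) < W := by exact_mod_cast hW
  let u : ℕ → ℕ → ℝ := fun i j => l j * (i * T) / W
  let f : Fin (W ^ m + 1) → (Fin m → Fin W) := fun i j =>
    ⟨⌊(W : ℝ) * Int.fract (u i j)⌋₊, by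
      rw [Nat.floor_lt (mul_nonneg hWr.le (Int.fract_nonneg _))]
      calc (W : ℝ) * Int.fract (u i j) < W * 1 := by
            gcongr
            exact Int.fract_lt_one _
        _ = W := mul_one _⟩
  obtain ⟨i, i', hne, hfe⟩ := Fintype.exists_ne_map_eq_of_card_lt f (by simp)
  have key : ∀ i i' : Fin (W ^ m + 1), i < i' → f i = f i' →
      ∃ k : ℕ, 1 ≤ k ∧ k ≤ W ^ m ∧ ∃ n : ℕ → ℕ, ∀ j < m,
        |l j * (k * T) - ((W * n j : ℕ) : ℝ)| ≤ 1 := by
    intro i i' hii hf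
    have hii' : (i : ℕ) < i' := hii
    refine ⟨(i' : ℕ) - i, by omega, by omega, fun j => ⌊u i' j⌋₊ - ⌊u i j⌋₊, fun j hj => ?_⟩
    have h1 : ⌊(W : ℝ) * Int.fract (u i j)⌋₊ = ⌊(W : ℝ) * Int.fract (u i' j)⌋₊ := by
      have := congrFun hf ⟨j, hj⟩
      exact congrArg Fin.val this
    have hlj := hl j hj
    have h2 : u i j ≤ u i' j := by
      show l j * (i * T) / W ≤ l j * (i' * T) / W
      have : ((i : ℕ) : ℝ) ≤ ((i' : ℕ) : ℝ) := by exact_mod_cast hii'.le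
      gcongr
    have h3 : 0 ≤ u i j := by
      show 0 ≤ l j * (i * T) / W
      positivity
    have h4 := fract_close h3 h2 h1
    have e1 : (W : ℝ) * (u i' j - u i j) = l j * ((((i' : ℕ) - i : ℕ) : ℝ) * T) := by
      show (W : ℝ) * (l j * (i' * T) / W - l j * (i * T) / W) = _
      rw [Nat.cast_sub hii'.le]
      field_simp
    rw [e1] at h4
    push_cast
    push_cast at h4
    exact h4
  rcases lt_or_gt_of_ne hne with h | h
  · exact key i i' h hfe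
  · exact key i' i h hfe.symm

end Pool.Agent.U26Z.SH
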