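import Pool.Agent.U26Z.SH.Cnt
import Pool.Agent.U26Z.SH.Rows
import Pool.Agent.U26Z.SH.Dir
import Pool.Agent.N610.MS.MAIN

set_option autoImplicit false

/-!
# Sampling numbers: no `(log X) ^ (1 - η)` points sample the windows of length `(log X) ^ a`
-/

namespace Pool.Agent.U26Z.SH

open Finset Filter Topology
open Pool.Agent.N610.MS
open Pool.Agent.H378R2 (WW PW GoodS)

/-- the number of the primes in `(x, x + H]` -/
noncomputable def pin (x H : ℝ) : ℕ := ((Ioc ⌊x⌋₊ ⌊x + H⌋₊).filter Nat.Prime).card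

/-- `π(x, H) log x / H` -/
noncomputable def den (x H : ℝ) : ℝ := pin x H * Real.log x / H

lemma R_eq (n : ℕ) {y : ℝ} (hy : 0 ≤ y) : R n y = den n y := by
  have e1 : ⌊(n : ℝ) + y⌋₊ = n + ⌊y⌋₊ := by
    rw [add_comm, Nat.floor_add_natCast hy, add_comm]
  have e2 : ⌊(n : ℝ)⌋₊ = n := Nat.floor_natCast n
  unfold R den pin
  rw [e1, e2, MAIN.cnt_eq, div_div_eq_mul_div]

lemma pin_le {x H : ℝ} (hx : 0 ≤ x) (hH : 0 ≤ H) : (pin x H : ℝ) ≤ H + 1 := by
  have h1 : pin x H ≤ ⌊x + H⌋₊ - ⌊x⌋₊ := by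
    unfold pin
    refine (Finset.card_filter_le _ _).trans ?_
    rw [Nat.card_Ioc]
  have h2 : ((⌊x + H⌋₊ - ⌊x⌋₊ : ℕ) : ℝ) ≤ H + 1 := by
    rw [Nat.cast_sub (Nat.floor_le_floor (by linarith))]
    have h3 : (⌊x + H⌋₊ : ℝ) ≤ x + H := Nat.floor_le (by linarith)
    have h4 := Nat.lt_floor_add_one x
    linarith
  exact (by exact_mod_cast h1 : (pin x H : ℝ) ≤ _).trans h2

lemma pin_close1 {u v : ℝ} (H : ℝ) (hu : 0 ≤ u) (hv : 0 ≤ v) (hH : 0 ≤ H) (h : |u - v| ≤ 1) :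
    pin u H ≤ pin v H + 2 := by
  classical
  rw [abs_le] at h
  have f1 : ⌊v⌋₊ ≤ ⌊u⌋₊ + 1 := by
    rw [← Nat.floor_add_one hu]
    exact Nat.floor_le_floor (by linarith)
  have f2 : ⌊u + H⌋₊ ≤ ⌊v + H⌋₊ + 1 := by
    rw [← Nat.floor_add_one (by linarith : (0 : ℝ) ≤ v + H)]
    exact Nat.floor_le_floor (by linarith)
  unfold pin
  have hsub : (Ioc ⌊u⌋₊ ⌊u + H⌋₊).filter Nat.Prime ⊆
      (Ioc ⌊v⌋₊ ⌊v + H⌋₊).filter Nat.Prime ∪ {⌊v⌋₊, ⌊v + H⌋₊ + 1} := by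
    intro p hp
    simp only [mem_filter, mem_Ioc, mem_union, mem_insert, mem_singleton] at hp ⊢
    obtain ⟨⟨h1, h2⟩, h3⟩ := hp
    by_cases g1 : p = ⌊v⌋₊
    · exact Or.inr (Or.inl g1)
    by_cases g2 : p = ⌊v + H⌋₊ + 1
    · exact Or.inr (Or.inr g2)
    exact Or.inl ⟨⟨by omega, by omega⟩, h3⟩
  refine (card_le_card hsub).trans ((card_union_le _ _).trans ?_)
  have : ({⌊v⌋₊, ⌊v + H⌋₊ + 1} : Finset ℕ).card ≤ 2 := card_le_two
  omega

lemma log_close {X u v : ℝ} (hX : 0 < X) (hu : X ≤ u) (hv : X ≤ v) (h : |u - v| ≤ 1) :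
    |Real.log u - Real.log v| ≤ 1 / X := by
  have key : ∀ u v : ℝ, X ≤ u → X ≤ v → u - v ≤ 1 → Real.log u - Real.log v ≤ 1 / X := by
    intro u v hu hv h
    have hu0 : 0 < u := by linarith
    have hv0 : 0 < v := by linarith
    rw [← Real.log_div hu0.ne' hv0.ne']
    refine (Real.log_le_sub_one_of_pos (by positivity)).trans ?_
    rw [div_sub_one hv0.ne']
    by_cases g : u - v ≤ 0
    · exact (div_nonpos_of_nonpos_of_nonneg g hv0.le).trans (by positivity)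
    · push Not at g
      exact div_le_div₀ (by norm_num) h hX hv
  rw [abs_le] at h ⊢
  constructor
  · have := key v u hv hu (by linarith [h.1])
    linarith
  · exact key u v hu hv h.2

lemma den_close {X u v H : ℝ} (hX : 1 ≤ X) (hu : X ≤ u) (hv : X ≤ v) (hu4 : u ≤ 4 * X)
    (hH : 1 ≤ H) (h : |u - v| ≤ 1) :
    |den u H - den v H| ≤ 2 * Real.log (4 * X) / H + 2 / X := by
  have hX0 : 0 < X := by linarith
  have hH0 : 0 < H := by linarith
  have hl0 : 0 ≤ Real.log u := Real.log_nonneg (by linarith)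
  have hl : Real.log u ≤ Real.log (4 * X) := Real.log_le_log (by linarith) hu4
  have h1 : |(pin u H : ℝ) - pin v H| ≤ 2 := by
    have g1 := pin_close1 H (by linarith) (by linarith) hH0.le h
    have g2 := pin_close1 H (by linarith : 0 ≤ v) (by linarith : 0 ≤ u) hH0.le (by rwa [abs_sub_comm])
    have g1' : (pin u H : ℝ) ≤ pin v H + 2 := by exact_mod_cast g1
    have g2' : (pin v H : ℝ) ≤ pin u H + 2 := by exact_mod_cast g2
    rw [abs_le]; constructor <;> linarith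
  have h2 := pin_le (by linarith : 0 ≤ v) hH0.le
  have h3 := log_close hX0 hu hv h
  have e1 : den u H - den v H =
      (((pin u H : ℝ) - pin v H) * Real.log u + pin v H * (Real.log u - Real.log v)) / H := by
    unfold den; ring
  rw [e1, abs_div, abs_of_pos hH0]
  have h4 : |((pin u H : ℝ) - pin v H) * Real.log u + pin v H * (Real.log u - Real.log v)| ≤
      2 * Real.log (4 * X) + (H + 1) * (1 / X) := by
    refine (abs_add_le _ _).trans (add_le_add ?_ ?_)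
    · rw [abs_mul, abs_of_nonneg hl0]
      exact mul_le_mul h1 hl hl0 (by norm_num)
    · rw [abs_mul, abs_of_nonneg (Nat.cast_nonneg _)]
      exact mul_le_mul h2 h3 (abs_nonneg _) (by linarith)
  calc _ ≤ (2 * Real.log (4 * X) + (H + 1) * (1 / X)) / H := by gcongr
    _ = 2 * Real.log (4 * X) / H + (1 + 1 / H) / X := by field_simp
    _ ≤ _ := by
        have : 1 / H ≤ 1 := by rw [div_le_one hH0]; exact hH
        gcongr
        linarith

lemma den_nonneg {X u H : ℝ} (hX : 1 ≤ X) (hu : X ≤ u) (hH : 1 ≤ H) : 0 ≤ den u H := by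
  have := Real.log_nonneg (by linarith : 1 ≤ u)
  unfold den
  positivity

lemma den_le {X u H : ℝ} (hu : 1 ≤ u) (hu4 : u ≤ 4 * X) (hH : 1 ≤ H) :
    |den u H| ≤ 2 * Real.log (4 * X) := by
  have hH0 : 0 < H := by linarith
  have hl0 : 0 ≤ Real.log u := Real.log_nonneg (by linarith)
  have hl : Real.log u ≤ Real.log (4 * X) := Real.log_le_log (by linarith) hu4
  have h2 := pin_le (by linarith : 0 ≤ u) hH0.le
  rw [abs_of_nonneg (by unfold den; positivity)]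
  unfold den
  rw [div_le_iff₀ hH0]
  calc (pin u H : ℝ) * Real.log u ≤ (H + 1) * Real.log (4 * X) := by gcongr
    _ ≤ (2 * H) * Real.log (4 * X) := by
        gcongr
        · exact hl0.trans hl
        · linarith
    _ = _ := by ring

lemma shift_sum {X : ℝ} {w g : ℕ → ℝ} {s : ℕ} {G : ℝ} (hX : 1 ≤ X) (hs : (s : ℝ) ≤ X)
    (hw : ∀ n, w n ≠ 0 → X < n ∧ (n : ℝ) < 3 * X)
    (hg : ∀ n : ℕ, 1 ≤ n → (n : ℝ) ≤ 4 * X → |g n| ≤ G) :
    |∑ n ∈ Icc 1 ⌊3 * X⌋₊, w n * g (n + s) - ∑ n ∈ Icc 1 ⌊3 * X⌋₊, w n * g n| ≤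
      G * ∑ n ∈ Icc 1 ⌊3 * X⌋₊, |w n - w (n + s)| := by
  set N := ⌊3 * X⌋₊ with hN
  have hw1 : ∀ n : ℕ, n ≤ s → w n = 0 := by
    intro n hn
    by_contra h
    have h1 := (hw n h).1
    have h2 : (n : ℝ) ≤ s := by exact_mod_cast hn
    linarith
  have hw2 : ∀ n : ℕ, N < n → w n = 0 := by
    intro n hn
    by_contra h
    have h1 := (hw n h).2
    have h2 := (Nat.floor_lt (by linarith)).1 hn
    linarith
  have e : ∑ n ∈ Icc 1 N, w (n + s) * g (n + s) = ∑ n ∈ Icc 1 N, w n * g n := by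
    have e1 : ∑ n ∈ Icc 1 N, w (n + s) * g (n + s) =
        ∑ n ∈ (Icc 1 N).map (addRightEmbedding s), w n * g n := by
      rw [Finset.sum_map]
      rfl
    rw [e1, Finset.map_add_right_Icc]
    have e2 : ∑ n ∈ Icc (1 + s) (N + s), w n * g n = ∑ n ∈ Icc 1 (N + s), w n * g n := by
      apply Finset.sum_subset
      · intro n hn
        rw [mem_Icc] at hn ⊢
        omega
      · intro n hn hn'
        rw [mem_Icc] at hn hn'
        rw [hw1 n (by omega), zero_mul]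
    have e3 : ∑ n ∈ Icc 1 N, w n * g n = ∑ n ∈ Icc 1 (N + s), w n * g n := by
      apply Finset.sum_subset
      · intro n hn
        rw [mem_Icc] at hn ⊢
        omega
      · intro n hn hn'
        rw [mem_Icc] at hn hn'
        rw [hw2 n (by omega), zero_mul]
    rw [e2, e3]
  rw [← e, ← Finset.sum_sub_distrib, Finset.mul_sum]
  refine (Finset.abs_sum_le_sum_abs _ _).trans (Finset.sum_le_sum fun n hn => ?_)
  rw [mem_Icc] at hn
  have e4 : w n * g (n + s) - w (n + s) * g (n + s) = (w n - w (n + s)) * g (n + s) := by ring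
  rw [e4, abs_mul, mul_comm]
  refine mul_le_mul_of_nonneg_right (hg _ (by omega) ?_) (abs_nonneg _)
  have h1 : (n : ℝ) ≤ 3 * X := (Nat.le_floor_iff (by linarith)).1 hn.2
  push_cast
  linarith

lemma ev_small (τ ε : ℝ) (hτ : 0 < τ) (hε : 0 < ε) : ∀ᶠ X : ℝ in atTop,
    (1 / Real.log X ≤ τ ∧ X ^ (-(1 / 10) : ℝ) ≤ τ ∧
    2 * Real.log (4 * X) * (480 * X ^ (-ε)) ≤ τ ∧ 2 / X ≤ τ ∧ 4 ≤ X ^ ε) ∧
    Real.log (4 * X) ≤ 2 * Real.log X := by
  have hL : Tendsto (fun X : ℝ => 1 / Real.log X) atTop (𝓝 0) := by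
    simp only [one_div]
    exact Real.tendsto_log_atTop.inv_tendsto_atTop
  have hX10 : Tendsto (fun X : ℝ => X ^ (-(1 / 10) : ℝ)) atTop (𝓝 0) :=
    tendsto_rpow_neg_atTop (by norm_num)
  have hX2 : Tendsto (fun X : ℝ => 2 / X) atTop (𝓝 0) := tendsto_id.const_div_atTop 2
  have h3 : Tendsto (fun X : ℝ => Real.log X / X ^ ε) atTop (𝓝 0) :=
    (isLittleO_log_rpow_atTop hε).tendsto_div_nhds_zero
  filter_upwards [hL.eventually_le_const hτ, hX10.eventually_le_const hτ,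
    hX2.eventually_le_const hτ, h3.eventually_le_const (show 0 < τ / 1920 by positivity),
    (tendsto_rpow_atTop hε).eventually_ge_atTop 4, eventually_ge_atTop (4 : ℝ),
    Real.tendsto_log_atTop.eventually_gt_atTop 0] with X g1 g2 g3 g4 g6 g7 g8
  have hX0 : 0 < X := by linarith
  have hl : Real.log (4 * X) ≤ 2 * Real.log X := by
    rw [Real.log_mul (by norm_num) hX0.ne']
    have := Real.log_le_log (by norm_num) g7
    linarith
  refine ⟨⟨g1, g2, ?_, g3, g6⟩, hl⟩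
  · rw [div_le_iff₀ (by positivity)] at g4
    rw [Real.rpow_neg hX0.le]
    have h5 : 0 < X ^ ε := by positivity
    calc 2 * Real.log (4 * X) * (480 * (X ^ ε)⁻¹) ≤ 2 * (2 * Real.log X) * (480 * (X ^ ε)⁻¹) := by
          gcongr
      _ = 1920 * Real.log X * (X ^ ε)⁻¹ := by ring
      _ ≤ 1920 * (τ / 1920 * X ^ ε) * (X ^ ε)⁻¹ := by gcongr
      _ = τ := by field_simp

lemma ev_pow (η ε : ℝ) (hη : 0 < η) (hε : 0 < ε) : ∀ᶠ X : ℝ in atTop, ∀ m W : ℕ,
    (m : ℝ) ≤ Real.log X ^ (1 - η) →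
    (W : ℝ) ≤ Real.exp (Real.log 4 * Real.log X ^ (η / 2)) → (W : ℝ) ^ m ≤ X ^ ε := by
  have h1 : Tendsto (fun L : ℝ => L ^ (-(η / 2))) atTop (𝓝 0) :=
    tendsto_rpow_neg_atTop (by positivity)
  filter_upwards [Real.tendsto_log_atTop.eventually (h1.eventually_le_const
    (show 0 < ε / 2 by positivity)), Real.tendsto_log_atTop.eventually_gt_atTop 0,
    eventually_gt_atTop (0 : ℝ)] with X g1 hL hX m W hm hW
  set L := Real.log X with hLd
  have hlog4 : 0 ≤ Real.log 4 ∧ Real.log 4 ≤ 2 := by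
    refine ⟨Real.log_nonneg (by norm_num), ?_⟩
    rw [show (4 : ℝ) = 2 ^ 2 by norm_num, Real.log_pow]
    have := Real.log_two_lt_d9
    push_cast; linarith
  calc (W : ℝ) ^ m ≤ Real.exp (Real.log 4 * L ^ (η / 2)) ^ m := by gcongr
    _ = Real.exp (m * (Real.log 4 * L ^ (η / 2))) := by rw [← Real.exp_nat_mul]
    _ ≤ Real.exp (L ^ (1 - η) * (2 * L ^ (η / 2))) := by
        apply Real.exp_le_exp.2
        gcongr
        exact hlog4.2
    _ = Real.exp (2 * (L * L ^ (-(η / 2)))) := by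
        congr 1
        have e1 : L ^ (1 - η) * L ^ (η / 2) = L * L ^ (-(η / 2)) := by
          rw [← Real.rpow_add hL]
          nth_rw 2 [← Real.rpow_one L]
          rw [← Real.rpow_add hL]
          congr 1
          ring
        calc L ^ (1 - η) * (2 * L ^ (η / 2)) = 2 * (L ^ (1 - η) * L ^ (η / 2)) := by ring
          _ = _ := by rw [e1]
    _ ≤ Real.exp (2 * (L * (ε / 2))) := by
        apply Real.exp_le_exp.2
        gcongr
    _ = X ^ ε := by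
        rw [Real.rpow_def_of_pos hX]
        congr 1
        ring

set_option maxHeartbeats 4000000 in
/-- the rows of the Maier matrix, with all points shifted by almost multiples of the modulus -/
lemma core3 {a κ σ δ τ ε B X : ℝ} {P : Finset ℕ} {w : ℕ → ℝ} {ρ : ℝ} {m : ℕ} {l c : ℕ → ℝ}
    {Y H : ℝ} {s : ℕ → ℕ} (ha : 1 ≤ a) (hσ : σ = 1 ∨ σ = -1) (hδ : 0 < δ)
    (hτd : τ = δ / (8 * (|B| + 1))) (hX1 : 1 < X) (hlog : 1 < Real.log X)
    (hpowX : Real.log X ^ (a + κ) ≤ X ^ (9 / 10 : ℝ))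
    (hsm : 1 / Real.log X ≤ τ ∧ X ^ (-(1 / 10) : ℝ) ≤ τ ∧
      2 * Real.log (4 * X) * (480 * X ^ (-ε)) ≤ τ ∧ 2 / X ≤ τ ∧ 4 ≤ X ^ ε)
    (s4 : 2 * Real.log (4 * X) / H ≤ τ)
    (hPB : 1 / 2 ≤ ∏ p ∈ P, (1 - 1 / (p : ℝ)))
    (hdev : ∀ y : ℝ, Real.log X ^ a ≤ y → y ≤ Real.log X ^ (a + κ) → 2 * δ ≤ σ * (rel P y - 1))
    (hρ : |ρ - 1| ≤ τ) (hw : ∀ n, 0 ≤ w n ∧ w n ≤ 20 * ((∏ p ∈ P, p : ℕ) : ℝ) / X)
    (hwn : ∀ n, w n ≠ 0 → X < n ∧ (n : ℝ) < 3 * X ∧ (∏ p ∈ P, p) ∣ n)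
    (hws : ∑ n ∈ Icc 1 ⌊3 * X⌋₊, w n = 1)
    (hwm : ∀ Y : ℕ, (Y : ℝ) ≤ X ^ (9 / 10 : ℝ) →
      |∑ n ∈ Icc 1 ⌊3 * X⌋₊, w n * lp n Y - ρ * (V P Y / ∏ p ∈ P, (1 - 1 / (p : ℝ)))| ≤
        Y / Real.log X ^ 1)
    (hwsh : ∀ s : ℕ, (∏ p ∈ P, p) ∣ s → (s : ℝ) ≤ X / 2 →
      ∑ n ∈ Icc 1 ⌊3 * X⌋₊, |w n - w (n + s)| ≤ 240 * s / X)
    (hlj : ∀ j < m, 0 ≤ l j * Y ∧ l j * Y ≤ X ^ (1 - ε)) (hX1ε : 1 ≤ X ^ (1 - ε))
    (hsd : ∀ j < m, (∏ p ∈ P, p) ∣ s j) (hsc : ∀ j < m, |l j * Y - s j| ≤ 1)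
    (hc1 : ∑ j ∈ range m, c j = 1) (hcB : ∑ j ∈ range m, |c j| ≤ B)
    (hH1 : Real.log X ^ a ≤ H) (hH2 : H ≤ Real.log X ^ (a + κ)) :
    ∃ x : ℕ, X < x ∧ (x : ℝ) < 3 * X ∧
      δ ≤ σ * (∑ j ∈ range m, c j * den (x + l j * Y) H - 1) := by
  classical
  obtain ⟨s1, s2, s3, s5, s6⟩ := hsm
  have hτ : 0 < τ := by rw [hτd]; positivity
  have hX0 : 0 < X := by linarith
  have hX4 : 4 * X ^ (1 - ε) ≤ X := by
    have hXp : 0 < X ^ (1 - ε) := by positivity
    calc 4 * X ^ (1 - ε) ≤ X ^ ε * X ^ (1 - ε) := by gcongr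
      _ = X := by rw [← Real.rpow_add hX0]; simp
  have hH1' : 1 ≤ H := by
    refine le_trans ?_ hH1
    exact Real.one_le_rpow hlog.le (by linarith)
  have hH0 : 0 < H := by linarith
  have hbase : |∑ n ∈ Icc 1 ⌊3 * X⌋₊, w n * R n H - rel P H| ≤
      2 * τ + 1 / Real.log X + X ^ (-(1 / 10) : ℝ) := by
    refine MAIN.key (X := X) (L := Real.log X) (ρ := ρ) (ε' := τ) (P := P) (w := w)
      (y := H) hX1.le (by linarith) rfl hPB hρ (fun n => (hw n).1) (fun n hn => (hwn n hn).1) hws hH0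
      (hH2.trans hpowX) ?_
    have h5 : ((⌊H⌋₊ : ℕ) : ℝ) ≤ X ^ (9 / 10 : ℝ) := (Nat.floor_le hH0.le).trans (hH2.trans hpowX)
    have h6 := hwm ⌊H⌋₊ h5
    rwa [pow_one] at h6
  have hkey : ∀ j < m, |∑ n ∈ Icc 1 ⌊3 * X⌋₊, w n * den (n + l j * Y) H - rel P H| ≤ 8 * τ := by
    intro j hj
    obtain ⟨s, hs⟩ : ∃ s' : ℕ, s' = s j := ⟨_, rfl⟩
    have hs2 := hsc j hj
    have hs1 : (s : ℝ) ≤ 2 * X ^ (1 - ε) := by
      rw [abs_le] at hs2
      rw [hs]
      linarith [(hlj j hj).2]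
    have hsd' := hsd j hj
    rw [← hs] at hs2 hsd'
    have hsX : (s : ℝ) ≤ X / 2 := by linarith
    -- from the real shift to the shift by `s`
    have h1 : |∑ n ∈ Icc 1 ⌊3 * X⌋₊, w n * den (n + l j * Y) H -
        ∑ n ∈ Icc 1 ⌊3 * X⌋₊, w n * R (n + s : ℕ) H| ≤ 2 * τ := by
      rw [← Finset.sum_sub_distrib]
      calc |∑ n ∈ Icc 1 ⌊3 * X⌋₊, (w n * den (n + l j * Y) H - w n * R (n + s : ℕ) H)|
          ≤ ∑ n ∈ Icc 1 ⌊3 * X⌋₊, |w n * den (n + l j * Y) H - w n * R (n + s : ℕ) H| :=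
            Finset.abs_sum_le_sum_abs _ _
        _ ≤ ∑ n ∈ Icc 1 ⌊3 * X⌋₊, w n * (2 * τ) := by
            refine Finset.sum_le_sum fun n _ => ?_
            rw [R_eq _ hH0.le, ← mul_sub, abs_mul, abs_of_nonneg (hw n).1]
            by_cases hwn0 : w n = 0
            · rw [hwn0]; simp
            · obtain ⟨g1, g2, _⟩ := hwn n hwn0
              refine mul_le_mul_of_nonneg_left ?_ (hw n).1
              have g3 := hlj j hj
              refine (den_close (X := X) hX1.le ?_ ?_ ?_ hH1' ?_).trans ?_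
              · linarith
              · push_cast
                have : (0 : ℝ) ≤ s := Nat.cast_nonneg _
                linarith
              · linarith
              · push_cast
                rw [show (n : ℝ) + l j * Y - (n + s) = l j * Y - s by ring]
                exact hs2
              · linarith
        _ = 2 * τ := by rw [← Finset.sum_mul, hws, one_mul]
    -- from the shift by `s` to no shift
    have h2 : |∑ n ∈ Icc 1 ⌊3 * X⌋₊, w n * R (n + s : ℕ) H -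
        ∑ n ∈ Icc 1 ⌊3 * X⌋₊, w n * R n H| ≤ τ := by
      have g1 := shift_sum (X := X) (w := w) (g := fun n => R n H) (s := s)
        (G := 2 * Real.log (4 * X)) hX1.le (by linarith)
        (fun n hn => ⟨(hwn n hn).1, (hwn n hn).2.1⟩) (by
          intro n hn1 hn4
          show |R n H| ≤ _
          rw [R_eq _ hH0.le]
          exact den_le (by exact_mod_cast hn1) hn4 hH1')
      refine g1.trans ?_
      refine le_trans ?_ s3
      have g2 : 0 ≤ 2 * Real.log (4 * X) := by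
        have := Real.log_nonneg (show 1 ≤ 4 * X by linarith)
        linarith
      refine mul_le_mul_of_nonneg_left ?_ g2
      refine (hwsh s hsd' hsX).trans ?_
      calc 240 * (s : ℝ) / X ≤ 240 * (2 * X ^ (1 - ε)) / X := by gcongr
        _ = 480 * X ^ (-ε) := by
            rw [Real.rpow_sub hX0, Real.rpow_one, Real.rpow_neg hX0.le]
            field_simp
            norm_num
    have h3 : ∑ n ∈ Icc 1 ⌊3 * X⌋₊, w n * den (n + l j * Y) H - rel P H =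
        (∑ n ∈ Icc 1 ⌊3 * X⌋₊, w n * den (n + l j * Y) H -
          ∑ n ∈ Icc 1 ⌊3 * X⌋₊, w n * R (n + s : ℕ) H) +
        ((∑ n ∈ Icc 1 ⌊3 * X⌋₊, w n * R (n + s : ℕ) H - ∑ n ∈ Icc 1 ⌊3 * X⌋₊, w n * R n H) +
        (∑ n ∈ Icc 1 ⌊3 * X⌋₊, w n * R n H - rel P H)) := by ring
    rw [h3]
    refine (abs_add_le _ _).trans ?_
    have h4 := abs_add_le (∑ n ∈ Icc 1 ⌊3 * X⌋₊, w n * R (n + s : ℕ) H -
      ∑ n ∈ Icc 1 ⌊3 * X⌋₊, w n * R n H) (∑ n ∈ Icc 1 ⌊3 * X⌋₊, w n * R n H - rel P H)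
    linarith
  by_contra hcon
  push Not at hcon
  -- the mean over the rows
  have e1 : ∑ n ∈ Icc 1 ⌊3 * X⌋₊, w n * (σ * (∑ j ∈ range m, c j * den (n + l j * Y) H - 1)) =
      σ * (rel P H - 1) + σ * ∑ j ∈ range m, c j *
        (∑ n ∈ Icc 1 ⌊3 * X⌋₊, w n * den (n + l j * Y) H - rel P H) := by
    have e2 : ∑ n ∈ Icc 1 ⌊3 * X⌋₊, w n * (σ * (∑ j ∈ range m, c j * den (n + l j * Y) H - 1)) =
        σ * (∑ j ∈ range m, c j * ∑ n ∈ Icc 1 ⌊3 * X⌋₊, w n * den (n + l j * Y) H) - σ := by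
      have e3 : ∀ n ∈ Icc 1 ⌊3 * X⌋₊,
          w n * (σ * (∑ j ∈ range m, c j * den (n + l j * Y) H - 1)) =
          σ * (∑ j ∈ range m, c j * (w n * den (n + l j * Y) H)) - σ * w n := by
        intro n _
        have e4 : ∑ j ∈ range m, c j * (w n * den (n + l j * Y) H) =
            w n * ∑ j ∈ range m, c j * den (n + l j * Y) H := by
          rw [Finset.mul_sum]
          exact Finset.sum_congr rfl fun j _ => by ring
        rw [e4]; ring
      rw [Finset.sum_congr rfl e3, Finset.sum_sub_distrib, ← Finset.mul_sum, ← Finset.mul_sum, hws,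
        mul_one, Finset.sum_comm]
      congr 2
      exact Finset.sum_congr rfl fun j _ => by rw [Finset.mul_sum]
    rw [e2]
    have e5 : ∑ j ∈ range m, c j * (∑ n ∈ Icc 1 ⌊3 * X⌋₊, w n * den (n + l j * Y) H - rel P H) =
        ∑ j ∈ range m, c j * ∑ n ∈ Icc 1 ⌊3 * X⌋₊, w n * den (n + l j * Y) H - rel P H := by
      have : ∀ j ∈ range m, c j * (∑ n ∈ Icc 1 ⌊3 * X⌋₊, w n * den (n + l j * Y) H - rel P H) =
          c j * (∑ n ∈ Icc 1 ⌊3 * X⌋₊, w n * den (n + l j * Y) H) - c j * rel P H := by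
        intro j _; ring
      rw [Finset.sum_congr rfl this, Finset.sum_sub_distrib, ← Finset.sum_mul, hc1, one_mul]
    rw [e5]; ring
  have hσa : |σ| = 1 := by rcases hσ with h | h <;> rw [h] <;> simp
  have h1 : |σ * ∑ j ∈ range m, c j *
      (∑ n ∈ Icc 1 ⌊3 * X⌋₊, w n * den (n + l j * Y) H - rel P H)| ≤ |B| * (8 * τ) := by
    rw [abs_mul, hσa, one_mul]
    calc |∑ j ∈ range m, c j * (∑ n ∈ Icc 1 ⌊3 * X⌋₊, w n * den (n + l j * Y) H - rel P H)|
        ≤ ∑ j ∈ range m, |c j * (∑ n ∈ Icc 1 ⌊3 * X⌋₊, w n * den (n + l j * Y) H - rel P H)| :=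
          Finset.abs_sum_le_sum_abs _ _
      _ ≤ ∑ j ∈ range m, |c j| * (8 * τ) := by
          refine Finset.sum_le_sum fun j hj => ?_
          rw [abs_mul]
          exact mul_le_mul_of_nonneg_left (hkey j (mem_range.1 hj)) (abs_nonneg _)
      _ = (∑ j ∈ range m, |c j|) * (8 * τ) := by rw [Finset.sum_mul]
      _ ≤ |B| * (8 * τ) := by
          have := hcB.trans (le_abs_self B)
          gcongr
  have h2 : |B| * (8 * τ) < δ := by
    rw [hτd]
    have e6 : |B| * (8 * (δ / (8 * (|B| + 1)))) = δ * (|B| / (|B| + 1)) := by field_simp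
    rw [e6]
    have : |B| / (|B| + 1) < 1 := by
      rw [div_lt_one (by positivity)]
      linarith
    calc δ * (|B| / (|B| + 1)) < δ * 1 := by gcongr
      _ = δ := mul_one _
  have h3 := hdev H hH1 hH2
  have h4 : ∑ n ∈ Icc 1 ⌊3 * X⌋₊, w n * (σ * (∑ j ∈ range m, c j * den (n + l j * Y) H - 1)) ≤
      ∑ n ∈ Icc 1 ⌊3 * X⌋₊, w n * δ := by
    refine Finset.sum_le_sum fun n _ => ?_
    by_cases hwn0 : w n = 0
    · rw [hwn0]; simp
    · obtain ⟨g1, g2, _⟩ := hwn n hwn0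
      exact mul_le_mul_of_nonneg_left (hcon n g1 g2).le (hw n).1
  rw [e1, ← Finset.sum_mul, hws, one_mul] at h4
  have h5 := (abs_le.1 h1).1
  linarith


/-- **no quadrature formula with `(log X) ^ (1 - η)` nodes and bounded weights is exact up to `1 + o(1)` for
the number of the primes in the intervals of a length `K log X ≤ H ≤ (log X) ^ A`**, at any scale `Y` -/
theorem lower (A η : ℝ) (hη : 0 < η) :
    ∃ δ : ℝ, 0 < δ ∧ ∀ B : ℝ, ∃ K : ℝ, 0 < K ∧ ∀ ε : ℝ, 0 < ε →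
      ∀ᶠ X : ℝ in atTop, ∀ m : ℕ, (m : ℝ) ≤ Real.log X ^ (1 - η) → ∀ l : ℕ → ℝ,
        (∀ j < m, 0 ≤ l j ∧ l j ≤ 1) → ∀ T : ℝ, 1 ≤ T → T ≤ X ^ (1 - 2 * ε) →
        ∃ Y : ℝ, T ≤ Y ∧ Y ≤ T * X ^ ε ∧
        ∀ c : ℕ → ℝ, ∑ j ∈ range m, c j = 1 → ∑ j ∈ range m, |c j| ≤ B →
        ∀ H : ℝ, K * Real.log X ≤ H → H ≤ Real.log X ^ A →
        (∃ x : ℕ, X < x ∧ (x : ℝ) < 3 * X ∧
          1 + δ ≤ ∑ j ∈ range m, c j * den (x + l j * Y) H) ∧
        (∃ x : ℕ, X < x ∧ (x : ℝ) < 3 * X ∧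
          ∑ j ∈ range m, c j * den (x + l j * Y) H ≤ 1 - δ) := by
  classical
  obtain ⟨κ, hκ, hcnt⟩ := cnt3 t_BON (t_LEG t_BON) η hη
  obtain ⟨N, hN⟩ : ∃ N : ℕ, N = ⌊|A| / κ⌋₊ + 1 := ⟨_, rfl⟩
  have hNpos : 0 < N := by omega
  have : NeZero N := ⟨hNpos.ne'⟩
  let sg : Bool → ℝ := fun b => if b then 1 else -1
  have hsg : ∀ b, sg b = 1 ∨ sg b = -1 := by
    intro b; cases b
    · exact Or.inr rfl
    · exact Or.inl rfl
  let av : Fin N × Bool → ℝ := fun i => 1 + (i.1 : ℕ) * κ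
  have hav : ∀ i, 1 ≤ av i := by
    intro i
    show 1 ≤ 1 + ((i.1 : ℕ) : ℝ) * κ
    have : 0 ≤ ((i.1 : ℕ) : ℝ) * κ := by positivity
    linarith
  choose dl hdl _ hcl using fun i : Fin N × Bool => hcnt (av i) (hav i) (sg i.2) (hsg i.2)
  obtain ⟨i0, hi0⟩ := Finite.exists_min dl
  obtain ⟨δ, hδd⟩ : ∃ δ : ℝ, δ = dl i0 := ⟨_, rfl⟩
  have hδ : 0 < δ := by rw [hδd]; exact hdl i0
  refine ⟨δ, hδ, fun B => ?_⟩
  obtain ⟨τ, hτd⟩ : ∃ τ : ℝ, τ = δ / (8 * (|B| + 1)) := ⟨_, rfl⟩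
  have hτ : 0 < τ := by rw [hτd]; positivity
  refine ⟨max 1 (4 / τ), by positivity, fun ε hε => ?_⟩
  have hpow : ∀ᶠ X : ℝ in atTop, ∀ i : Fin N × Bool,
      Real.log X ^ (av i + κ) ≤ X ^ (9 / 10 : ℝ) := by
    rw [Filter.eventually_all]
    intro i
    have := (isLittleO_log_rpow_rpow_atTop (av i + κ) (show (0 : ℝ) < 9 / 10 by norm_num)).bound
      (show (0 : ℝ) < 1 by norm_num)
    filter_upwards [this, eventually_ge_atTop (1 : ℝ)] with X hX hX1
    have hl : 0 ≤ Real.log X := Real.log_nonneg hX1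
    rw [one_mul, Real.norm_of_nonneg (Real.rpow_nonneg hl _),
      Real.norm_of_nonneg (Real.rpow_nonneg (by linarith) _)] at hX
    exact hX
  have hcard : (0 : ℝ) < Fintype.card (Fin N × Bool) := by
    exact_mod_cast Fintype.card_pos
  filter_upwards [Filter.eventually_all.2 hcl, rows2 1 τ hτ, ev_small τ ε hτ hε, hpow,
    ev_pow η (ε / Fintype.card (Fin N × Bool)) hη (by positivity),
    eventually_gt_atTop (Real.exp 1)] with X hcX hrX hsm hpowX hWX hXe m hm l hl T hT1 hT2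
  obtain ⟨hsm, hl4⟩ := hsm
  obtain ⟨ps, S, hS, hrow⟩ := hrX
  choose P hP hPX hPB hdev using fun i => hcX i S ps hS
  choose w ρ hρ hw hwn hws hwm hwsh using fun i => hrow (P i) (hP i) (hPB i)
  have hX1 : 1 < X := by
    have := Real.add_one_le_exp (1 : ℝ)
    linarith
  have hX0 : 0 < X := by linarith
  have hlog : 1 < Real.log X := by
    rw [Real.lt_log_iff_exp_lt (by linarith)]
    exact hXe
  have hWpos : ∀ i, 0 < ∏ p ∈ P i, p := by
    intro i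
    refine Finset.prod_pos fun p hp => ?_
    have h3 := hP i hp
    rw [Pool.Agent.H378R2.PW, Finset.mem_filter] at h3
    exact h3.2.1.pos
  obtain ⟨W, hWd⟩ : ∃ W : ℕ, W = ∏ i, ∏ p ∈ P i, p := ⟨_, rfl⟩
  have hWp : 0 < W := by rw [hWd]; exact Finset.prod_pos fun i _ => hWpos i
  have hWdvd : ∀ i, (∏ p ∈ P i, p) ∣ W := fun i => by
    rw [hWd]; exact Finset.dvd_prod_of_mem _ (Finset.mem_univ i)
  have hWm : (W : ℝ) ^ m ≤ X ^ ε := by
    rw [hWd]
    push_cast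
    rw [← Finset.prod_pow]
    calc ∏ i, (∏ p ∈ P i, (p : ℝ)) ^ m ≤ ∏ i : Fin N × Bool, X ^ (ε / Fintype.card (Fin N × Bool)) := by
          refine Finset.prod_le_prod (fun i _ => by positivity) fun i _ => ?_
          have := hWX m (∏ p ∈ P i, p) hm (hPX i)
          push_cast at this
          exact this
      _ = X ^ ε := by
          rw [Finset.prod_const, Finset.card_univ, ← Real.rpow_natCast, ← Real.rpow_mul hX0.le]
          congr 1
          field_simp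
  obtain ⟨k, hk1, hk2, nn, hnn⟩ := dirichlet m W hWp T (by linarith) l
    (fun j hj => (hl j hj).1)
  have hk1r : (1 : ℝ) ≤ k := by exact_mod_cast hk1
  have hk2r : (k : ℝ) ≤ X ^ ε := by
    refine le_trans ?_ hWm
    exact_mod_cast hk2
  have hXε : 0 < X ^ ε := by positivity
  obtain ⟨Y, hYd⟩ : ∃ Y : ℝ, Y = k * T := ⟨_, rfl⟩
  have hY1 : T ≤ Y := by rw [hYd]; nlinarith
  have hY2 : Y ≤ T * X ^ ε := by rw [hYd, mul_comm]; gcongr
  have hY0 : 0 ≤ Y := by linarith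
  have hYX : Y ≤ X ^ (1 - ε) := by
    calc Y ≤ T * X ^ ε := hY2
      _ ≤ X ^ (1 - 2 * ε) * X ^ ε := by gcongr
      _ = X ^ (1 - ε) := by rw [← Real.rpow_add hX0]; congr 1; ring
  have hX1ε : 1 ≤ X ^ (1 - ε) := (hT1.trans hY1).trans hYX
  have hlj : ∀ j < m, 0 ≤ l j * Y ∧ l j * Y ≤ X ^ (1 - ε) := by
    intro j hj
    obtain ⟨g1, g2⟩ := hl j hj
    refine ⟨mul_nonneg g1 hY0, ?_⟩
    calc l j * Y ≤ 1 * Y := by gcongr
      _ ≤ _ := by rw [one_mul]; exact hYX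
  have hsc : ∀ j < m, |l j * Y - ((W * nn j : ℕ) : ℝ)| ≤ 1 := by
    intro j hj
    rw [hYd]
    exact hnn j hj
  refine ⟨Y, hY1, hY2, fun c hc1 hcB H hH1 hH2 => ?_⟩
  have hL0 : 0 < Real.log X := by linarith
  have hHL : Real.log X ≤ H := by
    refine le_trans ?_ hH1
    have : 1 ≤ max 1 (4 / τ) := le_max_left _ _
    nlinarith
  have hH0 : 0 < H := by linarith
  have hs4 : 2 * Real.log (4 * X) / H ≤ τ := by
    rw [div_le_iff₀ hH0]
    have g1 : 4 / τ * Real.log X ≤ H := by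
      refine le_trans ?_ hH1
      gcongr
      exact le_max_right _ _
    calc 2 * Real.log (4 * X) ≤ 4 * Real.log X := by linarith
      _ = τ * (4 / τ * Real.log X) := by field_simp
      _ ≤ τ * H := by gcongr
  -- the index of the length
  obtain ⟨t, ht⟩ : ∃ t : ℝ, t = Real.log H / Real.log (Real.log X) := ⟨_, rfl⟩
  have hLL : 0 < Real.log (Real.log X) := Real.log_pos hlog
  have hHt : Real.log X ^ t = H := by
    rw [Real.rpow_def_of_pos hL0, ht, mul_div_cancel₀ _ hLL.ne', Real.exp_log hH0]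
  have ht1 : 1 ≤ t := by
    rw [ht, le_div_iff₀ hLL, one_mul]
    exact Real.log_le_log hL0 hHL
  have htA : t ≤ A := by
    rw [← hHt] at hH2
    exact (Real.rpow_le_rpow_left_iff hlog).1 hH2
  obtain ⟨i, hi⟩ : ∃ i : ℕ, i = ⌊(t - 1) / κ⌋₊ := ⟨_, rfl⟩
  have ht0 : 0 ≤ (t - 1) / κ := div_nonneg (by linarith) hκ.le
  have hiN : i < N := by
    rw [hi, hN]
    refine Nat.lt_succ_of_le (Nat.floor_le_floor ?_)
    have := le_abs_self A
    gcongr
    linarith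
  have hi1 : (i : ℝ) * κ ≤ t - 1 := by
    have := Nat.floor_le ht0
    rw [← hi, le_div_iff₀ hκ] at this
    exact this
  have hi2 : t - 1 ≤ (i : ℝ) * κ + κ := by
    have := (Nat.lt_floor_add_one ((t - 1) / κ)).le
    rw [← hi, div_le_iff₀ hκ] at this
    linarith
  have hmain : ∀ b : Bool, ∃ x : ℕ, X < x ∧ (x : ℝ) < 3 * X ∧
      δ ≤ sg b * (∑ j ∈ range m, c j * den (x + l j * Y) H - 1) := by
    intro b
    obtain ⟨q, hq⟩ : ∃ q : Fin N × Bool, q = (⟨i, hiN⟩, b) := ⟨_, rfl⟩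
    have hq1 : av q = 1 + (i : ℝ) * κ := by rw [hq]
    have hq2 : sg q.2 = sg b := by rw [hq]
    rw [← hq2]
    have hδq : δ ≤ dl q := by rw [hδd]; exact hi0 q
    refine core3 (a := av q) (κ := κ) (P := P q) (w := w q) (ρ := ρ q) (s := fun j => W * nn j) (hav q)
      (hsg q.2) hδ hτd hX1 hlog (hpowX q) hsm hs4 (hPB q)
      (fun y hy1 hy2 => by have := hdev q y hy1 hy2; linarith) (hρ q) (hw q) (hwn q) (hws q)
      (hwm q) (hwsh q) hlj hX1ε (fun j _ => Dvd.dvd.mul_right (hWdvd q) _) hsc hc1 hcB ?_ ?_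
    · rw [← hHt, hq1]
      exact Real.rpow_le_rpow_of_exponent_le hlog.le (by linarith)
    · rw [← hHt, hq1]
      exact Real.rpow_le_rpow_of_exponent_le hlog.le (by linarith)
  constructor
  · obtain ⟨x, h1, h2, h3⟩ := hmain true
    have h3' : δ ≤ 1 * (∑ j ∈ range m, c j * den (x + l j * Y) H - 1) := h3
    exact ⟨x, h1, h2, by linarith⟩
  · obtain ⟨x, h1, h2, h3⟩ := hmain false
    have h3' : δ ≤ -1 * (∑ j ∈ range m, c j * den (x + l j * Y) H - 1) := h3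
    exact ⟨x, h1, h2, by linarith⟩

end Pool.Agent.U26Z.SH
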